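import Pool.Agent.V11271.DB.Multi

/-!
Corollaries of the divisor bound for sets of integers with few sums.
-/

set_option autoImplicit false

namespace Pool.Agent.V11271.DB

open Finset Pool.Agent.Y359.DB
open scoped Pointwise

/-- products along an arbitrary set of tuples -/
theorem card_le_image_mul {k : ℕ} (A : Fin k → Finset ℤ) (H : Finset (Fin k → ℤ)) (X : ℝ)
    (hH : ∀ f ∈ H, (∀ i, f i ∈ A i) ∧ ∏ i, f i ≠ 0)
    (hX : ∀ u : ℤ, u ≠ 0 → ((Fac A u).card : ℝ) ≤ X) :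
    (H.card : ℝ) ≤ ((H.image fun f => ∏ i, f i).card : ℝ) * X := by
  have h1 := Finset.card_eq_sum_card_image (fun f : Fin k → ℤ => ∏ i, f i) H
  have h2 : (H.card : ℝ) = ∑ u ∈ H.image fun f => ∏ i, f i,
      ((H.filter fun f => ∏ i, f i = u).card : ℝ) := by
    rw [h1]; push_cast; rfl
  rw [h2]
  have h3 : ∀ u ∈ H.image (fun f => ∏ i, f i), ((H.filter fun f => ∏ i, f i = u).card : ℝ) ≤ X := by
    intro u hu
    obtain ⟨f, hf, rfl⟩ := Finset.mem_image.1 hu
    refine le_trans ?_ (hX _ (hH f hf).2)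
    have h4 : (H.filter fun f' => ∏ i, f' i = ∏ i, f i) ⊆ Fac A (∏ i, f i) := by
      intro f' hf'
      obtain ⟨h5, h6⟩ := Finset.mem_filter.1 hf'
      exact mem_Fac.2 ⟨(hH f' h5).1, h6⟩
    exact_mod_cast Finset.card_le_card h4
  refine (Finset.sum_le_sum h3).trans ?_
  rw [Finset.sum_const, nsmul_eq_mul]

/-- Either few factorisations, pointwise and along all sets of tuples, or one of the iterated sumsets
grows. -/
theorem growth_multi (k : ℕ) (hk : 1 ≤ k) (ε : ℝ) (hε : 0 < ε) :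
    ∃ c : ℝ, 0 < c ∧ ∀ A : Fin k → Finset ℤ, (∀ i, (A i).Nonempty) → ∀ m : ℕ, 2 ≤ m →
      (∀ i, (m : ℝ) ≤ Real.log (A i).card) →
      ((∀ u : ℤ, u ≠ 0 → c * ((Fac A u).card : ℝ) ≤ ∏ i, ((A i).card : ℝ) ^ ε) ∧
        ∀ H : Finset (Fin k → ℤ), (∀ f ∈ H, (∀ i, f i ∈ A i) ∧ ∏ i, f i ≠ 0) →
          c * (H.card : ℝ) ≤
            (∏ i, ((A i).card : ℝ) ^ ε) * ((H.image fun f => ∏ i, f i).card : ℝ)) ∨
        ∃ i, ((A i).card : ℝ) ^ (1 + c * Real.log m) ≤
          ((Fintype.piFinset fun _ : Fin m => A i).image fun f => ∑ j, f j).card := by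
  obtain ⟨c, hc, h⟩ := growth_fac_multi k hk ε hε
  refine ⟨c, hc, ?_⟩
  intro A hA m hm hmA
  rcases h A hA m hm hmA with h1 | h1
  · left
    refine ⟨h1, ?_⟩
    intro H hH
    have h2 := card_le_image_mul A H ((∏ i, ((A i).card : ℝ) ^ ε) / c) hH (fun u hu => by
      rw [le_div_iff₀ hc, mul_comm]
      exact h1 u hu)
    have h3 := mul_le_mul_of_nonneg_left h2 hc.le
    refine h3.trans (le_of_eq ?_)
    field_simp
  · exact Or.inr h1

theorem log_le (x s : ℝ) (hx : 1 ≤ x) (hs : 0 < s) : 3 + Real.log x ≤ (3 + 1 / s) * x ^ s := by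
  have h1 : Real.log x ≤ x ^ s / s := Real.log_le_rpow_div (by linarith) hs
  have h2 : (1 : ℝ) ≤ x ^ s := Real.one_le_rpow hx hs.le
  have h3 : x ^ s / s = 1 / s * x ^ s := by ring
  nlinarith

/-- Few sums with sets of size at most `N`: few factorisations. -/
theorem few (k : ℕ) (hk : 1 ≤ k) (ε : ℝ) (hε : 0 < ε) :
    ∃ δ C : ℝ, 0 < δ ∧ 0 < C ∧ ∀ N : ℝ, 1 ≤ N → ∀ A P : Fin k → Finset ℤ,
      (∀ i, (P i).Nonempty ∧ ((P i).card : ℝ) ≤ N ∧
        ((A i + P i).card : ℝ) ≤ N ^ δ * (P i).card) →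
      ∀ u : ℤ, u ≠ 0 → ((Fac A u).card : ℝ) ≤ C * N ^ ε := by
  obtain ⟨C, hC, hb⟩ := divisor_bound k
  have hk0 : (1 : ℝ) ≤ k := by exact_mod_cast hk
  set e : ℝ := min (ε / (3 * k)) 1 with he
  have he0 : 0 < e := by positivity
  have he1 : e ≤ 1 := min_le_right _ _
  have hek : k * e ≤ ε / 3 := by
    have h1 : e ≤ ε / (3 * k) := min_le_left _ _
    have h2 : k * e ≤ k * (ε / (3 * k)) := mul_le_mul_of_nonneg_left h1 (by linarith)
    have h3 : (k : ℝ) * (ε / (3 * k)) = ε / 3 := by field_simp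
    linarith
  set M : ℝ := Real.exp (C / e) with hM
  have hM0 : 0 < M := Real.exp_pos _
  set s : ℝ := ε / (3 * k * M) with hs
  have hs0 : 0 < s := by positivity
  refine ⟨s, ((3 + 1 / s) ^ M) ^ k, hs0, by positivity, ?_⟩
  intro N hN A P hP u hu
  refine (hb e he0 he1 A P (fun i => (hP i).1) u hu).trans ?_
  have hN0 : 0 < N := by linarith
  have hone : ∀ i, ((P i).card : ℝ) ^ e * ((3 + Real.log (P i).card) *
      (((A i + P i).card : ℝ) / (P i).card)) ^ M ≤
      N ^ e * ((3 + 1 / s) ^ M * (N ^ (s * M) * N ^ (s * M))) := by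
    intro i
    obtain ⟨h1, h2, h3⟩ := hP i
    have cP : (1 : ℝ) ≤ (P i).card := by exact_mod_cast h1.card_pos
    have hlogP : 0 ≤ Real.log (P i).card := Real.log_nonneg cP
    have h4 : ((P i).card : ℝ) ^ e ≤ N ^ e := Real.rpow_le_rpow (by linarith) h2 he0.le
    have h5 : ((A i + P i).card : ℝ) / (P i).card ≤ N ^ s := by
      rw [div_le_iff₀ (by linarith)]; exact h3
    have h6 : 3 + Real.log (P i).card ≤ (3 + 1 / s) * N ^ s := by
      refine (log_le _ s cP hs0).trans ?_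
      exact mul_le_mul_of_nonneg_left (Real.rpow_le_rpow (by linarith) h2 hs0.le) (by positivity)
    have h7 : (3 + Real.log (P i).card) * (((A i + P i).card : ℝ) / (P i).card) ≤
        (3 + 1 / s) * N ^ s * N ^ s := mul_le_mul h6 h5 (by positivity) (by positivity)
    have h8 : ((3 + Real.log (P i).card) * (((A i + P i).card : ℝ) / (P i).card)) ^ M ≤
        ((3 + 1 / s) * N ^ s * N ^ s) ^ M := Real.rpow_le_rpow (by positivity) h7 hM0.le
    have h9 : ((3 + 1 / s) * N ^ s * N ^ s) ^ M = (3 + 1 / s) ^ M * (N ^ (s * M) * N ^ (s * M)) := by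
      rw [Real.mul_rpow (by positivity) (by positivity),
        Real.mul_rpow (by positivity) (by positivity), ← Real.rpow_mul hN0.le]
      ring
    rw [h9] at h8
    exact mul_le_mul h4 h8 (by positivity) (by positivity)
  refine (Finset.prod_le_prod (fun i _ => by
    obtain ⟨h1, h2, h3⟩ := hP i
    have cP : (1 : ℝ) ≤ (P i).card := by exact_mod_cast h1.card_pos
    have hlogP : 0 ≤ Real.log (P i).card := Real.log_nonneg cP
    positivity) (fun i _ => hone i)).trans ?_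
  rw [Finset.prod_const, Finset.card_univ, Fintype.card_fin, mul_pow, mul_pow]
  have e1 : (N ^ e) ^ k * (((3 + 1 / s) ^ M) ^ k * (N ^ (s * M) * N ^ (s * M)) ^ k) =
      ((3 + 1 / s) ^ M) ^ k * ((N ^ e) ^ k * (N ^ (s * M) * N ^ (s * M)) ^ k) := by ring
  rw [e1]
  refine mul_le_mul_of_nonneg_left ?_ (by positivity)
  rw [← Real.rpow_add hN0, ← Real.rpow_natCast, ← Real.rpow_natCast, ← Real.rpow_mul hN0.le,
    ← Real.rpow_mul hN0.le, ← Real.rpow_add hN0]
  apply Real.rpow_le_rpow_of_exponent_le hN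
  have e2 : (s * M + s * M) * (k : ℝ) = 2 * ε / 3 := by
    rw [hs]; field_simp; ring
  rw [e2]
  have e3 : e * (k : ℝ) = k * e := by ring
  rw [e3]
  linarith

end Pool.Agent.V11271.DB
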