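import Pool.Agent.Y359.DB.Growth

/-!
Growth of an iterated sumset, or few factorisations, for several sets.
(adapted from `Pool/Agent/Y359/DB/Growth.lean`)
-/

set_option autoImplicit false

namespace Pool.Agent.V11271.DB

open Finset H633R5.FS Pool.Agent.Y359.DB
open scoped Pointwise

/-- the bound for one set -/
theorem step (C δ : ℝ) (hC : 0 < C) (hδ0 : 0 < δ) (hδ1 : δ ≤ 1 / 2) (c : ℝ) (hc0 : 0 < c)
    (hc1 : c ≤ δ / (4 * C)) (hc2 : c ≤ δ / (3 * Real.exp (C / δ))) (hc4 : c ≤ 1)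
    (A : Finset ℤ) (hA : A.Nonempty) (m : ℕ) (hm : 2 ≤ m) (hmA : (m : ℝ) ≤ Real.log A.card)
    (hsum : ((SS m A).card : ℝ) < (A.card : ℝ) ^ (1 + c * Real.log m)) :
    ∃ P : Finset ℤ, P.Nonempty ∧
      δ / (1 + c * Real.log m) * Real.log P.card + Real.exp (C / (δ / (1 + c * Real.log m))) *
        (Real.log (3 + Real.log P.card) + Real.log (((A + P).card : ℝ) / P.card)) ≤
      3 * δ * Real.log A.card + (2 * δ + 16 * (Real.exp (C / δ)) ^ 2 / δ) := by
  set D : ℝ := Real.exp (C / δ) with hD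
  have hD1 : 1 ≤ D := Real.one_le_exp (by positivity)
  have hm2 : (2 : ℝ) ≤ m := by exact_mod_cast hm
  have hm0 : (0 : ℝ) < m := by linarith
  set ℓ : ℝ := Real.log A.card with hℓ
  have hℓ2 : 2 ≤ ℓ := by linarith
  have cA : (1 : ℝ) ≤ A.card := by exact_mod_cast hA.card_pos
  have hlogm : 0 < Real.log m := Real.log_pos (by linarith)
  set b : ℝ := c * Real.log m with hb
  have hb0 : 0 < b := by positivity
  obtain ⟨j, _, _, hj3, hj4⟩ := slow_step A hA m hm
  have hSm : Real.log (S A m).card ≤ (1 + b) * ℓ := by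
    have h1 : ((S A m).card : ℝ) ≤ (A.card : ℝ) ^ (1 + b) := by
      have h2 : ((S A m).card : ℝ) ≤ (SS m A).card := by
        exact_mod_cast Finset.card_le_card (S_subset A m)
      linarith
    have h2 : (0 : ℝ) < (S A m).card := by exact_mod_cast (S_nonempty hA m).card_pos
    have h3 := Real.log_le_log h2 h1
    rwa [Real.log_rpow (by linarith)] at h3
  have hP : (S A j).Nonempty := S_nonempty hA j
  have cP : (1 : ℝ) ≤ (S A j).card := by exact_mod_cast hP.card_pos
  have hlogP : 0 ≤ Real.log (S A j).card := Real.log_nonneg cP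
  have hlogPb : Real.log (S A j).card ≤ (1 + b) * ℓ := hj3.trans hSm
  set κ : ℝ := Real.log (((A + S A j).card : ℝ) / (S A j).card) with hκ
  have hκ0 : 0 ≤ κ := by
    apply Real.log_nonneg
    rw [le_div_iff₀ (by linarith), one_mul]
    exact_mod_cast Finset.card_le_card_add_left hA
  have hκb : κ ≤ 2 * b * ℓ / m := by
    rw [le_div_iff₀ hm0]
    have h1 : ((m : ℝ) - 1) * κ ≤ b * ℓ := by linarith
    nlinarith
  set e : ℝ := δ / (1 + b) with he
  have he0 : 0 < e := by positivity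
  have heb : e * (1 + b) = δ := by
    rw [he]; field_simp
  have hE : Real.exp (C / e) ≤ D * (m : ℝ) ^ (1 / 4 : ℝ) := by
    have h2 : C / e = C / δ + C * b / δ := by rw [he]; field_simp
    rw [h2, Real.exp_add, Real.rpow_def_of_pos hm0]
    refine mul_le_mul_of_nonneg_left ?_ (by linarith)
    apply Real.exp_le_exp.2
    have h3 : C * b / δ = (C * c / δ) * Real.log m := by rw [hb]; ring
    rw [h3, mul_comm (Real.log (m : ℝ))]
    refine mul_le_mul_of_nonneg_right ?_ hlogm.le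
    rw [div_le_iff₀ hδ0]
    have h4 : C * c ≤ C * (δ / (4 * C)) := mul_le_mul_of_nonneg_left hc1 hC.le
    have h5 : C * (δ / (4 * C)) = 1 / 4 * δ := by field_simp
    linarith
  have hE0 : 0 < Real.exp (C / e) := Real.exp_pos _
  have hloss1 : Real.exp (C / e) * κ ≤ δ * ℓ := by
    have h2 : Real.exp (C / e) * κ ≤ (D * (m : ℝ) ^ (1 / 4 : ℝ)) * (2 * b * ℓ / m) :=
      mul_le_mul hE hκb hκ0 (by positivity)
    have h3 : (m : ℝ) ^ (1 / 4 : ℝ) * (m : ℝ) ^ (3 / 4 : ℝ) = m := by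
      rw [← Real.rpow_add hm0]; norm_num
    have h4 : b ≤ c * (4 / 3 * (m : ℝ) ^ (3 / 4 : ℝ)) :=
      mul_le_mul_of_nonneg_left (log_le_pow m hm0) hc0.le
    have h5 : (D * (m : ℝ) ^ (1 / 4 : ℝ)) * (2 * b * ℓ / m) ≤
        (D * (m : ℝ) ^ (1 / 4 : ℝ)) * (2 * (c * (4 / 3 * (m : ℝ) ^ (3 / 4 : ℝ))) * ℓ / m) := by
      refine mul_le_mul_of_nonneg_left ?_ (by positivity)
      apply div_le_div_of_nonneg_right _ hm0.le
      refine mul_le_mul_of_nonneg_right ?_ (by linarith)
      linarith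
    have h6 : (D * (m : ℝ) ^ (1 / 4 : ℝ)) * (2 * (c * (4 / 3 * (m : ℝ) ^ (3 / 4 : ℝ))) * ℓ / m) =
        8 / 3 * D * c * ℓ := by
      have h7 : (D * (m : ℝ) ^ (1 / 4 : ℝ)) * (2 * (c * (4 / 3 * (m : ℝ) ^ (3 / 4 : ℝ))) * ℓ / m) =
          8 / 3 * D * c * ℓ * ((m : ℝ) ^ (1 / 4 : ℝ) * (m : ℝ) ^ (3 / 4 : ℝ)) / m := by ring
      rw [h7, h3]
      field_simp
    have h7 : 8 / 3 * D * c ≤ δ := by
      have h8 : D * c ≤ D * (δ / (3 * D)) := mul_le_mul_of_nonneg_left hc2 (by linarith)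
      have h9 : D * (δ / (3 * D)) = δ / 3 := by field_simp
      linarith
    have h8 : 8 / 3 * D * c * ℓ ≤ δ * ℓ := mul_le_mul_of_nonneg_right h7 (by linarith)
    linarith
  have hloss2 : Real.exp (C / e) * Real.log (3 + Real.log (S A j).card) ≤
      δ * ℓ + (2 * δ + 16 * D ^ 2 / δ) := by
    have h2 : b ≤ ℓ := by
      have h3 : Real.log m ≤ m := by
        have := Real.log_le_sub_one_of_pos hm0
        linarith
      have h4 : b ≤ 1 * Real.log m := mul_le_mul_of_nonneg_right hc4 hlogm.le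
      linarith
    have h3 : 3 + Real.log (S A j).card ≤ (ℓ + 2) ^ 2 := by nlinarith
    have h4 : Real.log (3 + Real.log (S A j).card) ≤ 2 * Real.log (ℓ + 2) := by
      have h5 := Real.log_le_log (by linarith) h3
      rw [Real.log_pow] at h5
      push_cast at h5
      exact h5
    have h5 := log_le_sqrt (ℓ + 2) (by linarith)
    have h6 : (m : ℝ) ^ (1 / 4 : ℝ) ≤ (ℓ + 2) ^ (1 / 4 : ℝ) :=
      Real.rpow_le_rpow hm0.le (by linarith) (by norm_num)
    have h0 : 0 ≤ Real.log (3 + Real.log (S A j).card) := Real.log_nonneg (by linarith)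
    obtain ⟨q, hq⟩ : ∃ q : ℝ, q = (ℓ + 2) ^ (1 / 4 : ℝ) := ⟨_, rfl⟩
    have hq0 : 0 < q := by rw [hq]; exact Real.rpow_pos_of_pos (by linarith) _
    have hq4 : q ^ 4 = ℓ + 2 := by
      rw [hq, ← Real.rpow_natCast, ← Real.rpow_mul (by linarith)]
      norm_num
    rw [← hq] at h5 h6
    have h7 : Real.exp (C / e) * Real.log (3 + Real.log (S A j).card) ≤ (D * q) * (8 * q) := by
      have h8 : Real.exp (C / e) ≤ D * q :=
        hE.trans (mul_le_mul_of_nonneg_left h6 (by linarith))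
      exact mul_le_mul h8 (by linarith) h0 (by positivity)
    have h8 : (D * q) * (8 * q) ≤ δ * q ^ 4 + 16 * D ^ 2 / δ := by
      have h9 : 0 ≤ (δ * q ^ 2 - 4 * D) ^ 2 / δ := by positivity
      have h10 : (δ * q ^ 2 - 4 * D) ^ 2 / δ = δ * q ^ 4 - 8 * D * q ^ 2 + 16 * D ^ 2 / δ := by
        field_simp
        ring
      rw [h10] at h9
      linarith
    rw [hq4] at h8
    linarith
  refine ⟨S A j, hP, ?_⟩
  have h3 : e * Real.log (S A j).card ≤ δ * ℓ := by
    have h4 : e * Real.log (S A j).card ≤ e * ((1 + b) * ℓ) :=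
      mul_le_mul_of_nonneg_left hlogPb he0.le
    have h5 : e * ((1 + b) * ℓ) = δ * ℓ := by rw [← mul_assoc, heb]
    linarith
  rw [mul_add]
  linarith

/-- Either every nonzero integer has few factorisations with factors in the given sets, or one of the
iterated sumsets grows. -/
theorem growth_fac_multi (k : ℕ) (hk : 1 ≤ k) (ε : ℝ) (hε : 0 < ε) :
    ∃ c : ℝ, 0 < c ∧ ∀ A : Fin k → Finset ℤ, (∀ i, (A i).Nonempty) → ∀ m : ℕ, 2 ≤ m →
      (∀ i, (m : ℝ) ≤ Real.log (A i).card) →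
      (∀ u : ℤ, u ≠ 0 → c * ((Fac A u).card : ℝ) ≤ ∏ i, ((A i).card : ℝ) ^ ε) ∨
        ∃ i, ((A i).card : ℝ) ^ (1 + c * Real.log m) ≤ (SS m (A i)).card := by
  have hk0 : (1 : ℝ) ≤ k := by exact_mod_cast hk
  set δ : ℝ := min (ε / 3) (1 / 2) with hδ
  have hδ0 : 0 < δ := by positivity
  have hδ1 : δ ≤ 1 / 2 := min_le_right _ _
  have hδk : 3 * δ ≤ ε := by
    have h1 : δ ≤ ε / 3 := min_le_left _ _
    linarith
  obtain ⟨C, hC, htup⟩ := divisor_log k hk
  set D : ℝ := Real.exp (C / δ) with hD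
  set T : ℝ := k * (2 * δ + 16 * D ^ 2 / δ) with hT
  have hT0 : 0 < T := by positivity
  set c : ℝ := min (min (δ / (4 * C)) (δ / (3 * D))) (Real.exp (-T)) with hc
  have hc0 : 0 < c := by positivity
  have hc1 : c ≤ δ / (4 * C) := (min_le_left _ _).trans (min_le_left _ _)
  have hc2 : c ≤ δ / (3 * D) := (min_le_left _ _).trans (min_le_right _ _)
  have hc3 : c ≤ Real.exp (-T) := min_le_right _ _
  have hc4 : c ≤ 1 := hc3.trans (Real.exp_le_one_iff.2 (by linarith))
  refine ⟨c, hc0, ?_⟩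
  intro A hA m hm hmA
  by_contra hcon
  push Not at hcon
  obtain ⟨⟨u, hu, hprod⟩, hsum⟩ := hcon
  have hm2 : (2 : ℝ) ≤ m := by exact_mod_cast hm
  have hlogm : 0 < Real.log m := Real.log_pos (by linarith)
  have hst := fun i => step C δ hC hδ0 hδ1 c hc0 hc1 hc2 hc4 (A i) (hA i) m hm (hmA i) (hsum i)
  choose P hP hPb using hst
  have hb0 : 0 < c * Real.log m := by positivity
  set e : ℝ := δ / (1 + c * Real.log m) with he
  have he0 : 0 < e := by positivity
  have he1 : e ≤ 1 := by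
    rw [he, div_le_one (by positivity)]; linarith
  have hpos : 0 < ∏ i, ((A i).card : ℝ) ^ ε := by
    apply Finset.prod_pos
    intro i _
    apply Real.rpow_pos_of_pos
    exact_mod_cast (hA i).card_pos
  have hFne : (Fac A u).Nonempty := by
    by_contra h
    rw [Finset.not_nonempty_iff_eq_empty] at h
    rw [h] at hprod
    simp only [Finset.card_empty, Nat.cast_zero, mul_zero] at hprod
    linarith
  have h1 := htup e he0 he1 A P hP u hu hFne
  have h2 : Real.log (Fac A u).card ≤ ∑ i, (3 * δ * Real.log (A i).card +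
      (2 * δ + 16 * D ^ 2 / δ)) := h1.trans (Finset.sum_le_sum fun i _ => hPb i)
  rw [Finset.sum_add_distrib, Finset.sum_const, Finset.card_univ, Fintype.card_fin,
    nsmul_eq_mul, ← hT] at h2
  have cF : (0 : ℝ) < (Fac A u).card := by exact_mod_cast hFne.card_pos
  have h3 : Real.log (∏ i, ((A i).card : ℝ) ^ ε) <
      Real.log (c * ((Fac A u).card : ℝ)) := Real.log_lt_log hpos hprod
  have h5 : Real.log (∏ i, ((A i).card : ℝ) ^ ε) = ∑ i, ε * Real.log (A i).card := by
    rw [Real.log_prod]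
    · apply Finset.sum_congr rfl
      intro i _
      rw [Real.log_rpow (by exact_mod_cast (hA i).card_pos)]
    · intro i _
      exact (Real.rpow_pos_of_pos (by exact_mod_cast (hA i).card_pos) _).ne'
  rw [Real.log_mul hc0.ne' cF.ne', h5] at h3
  have h4 : Real.log c ≤ -T := by
    rw [Real.log_le_iff_le_exp hc0]; exact hc3
  have h6 : ∑ i, 3 * δ * Real.log (A i).card ≤ ∑ i, ε * Real.log (A i).card := by
    apply Finset.sum_le_sum
    intro i _
    apply mul_le_mul_of_nonneg_right hδk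
    linarith [hmA i]
  linarith

end Pool.Agent.V11271.DB
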